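import Pool.Agent.P8H13.FG.MainW
import Pool.Agent.Y842.PH.Tri
import Pool.Agent.Y842.EL.One
import Pool.Agent.TH823.MRS.Fun

set_option autoImplicit false

/-! The window bound for the products of two values of the Liouville function with a fixed gap. -/

open Finset Filter

namespace Pool.Agent.P8H13.FG

open Pool.Agent.Helper602.MK (ee)
open Pool.Agent.H373R2.T7 (exI)
open Pool.Agent.H376R2.MR (lam)
open Pool.Agent.Y842.JC (LW)
open Pool.Agent.Y842.PH (Cr one_E part)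

/-- the two notions of `e(x)` -/
lemma ee_eq (x : ℝ) : Pool.Agent.H807R2.Dav.ee x = ee x := by
  unfold Pool.Agent.H807R2.Dav.ee ee
  congr 1
  ring

/-- the windows as differences of initial segments -/
lemma lw_eq (F : ℕ → ℂ) (N z t : ℕ) :
    LW N (4 * N) (fun n => exI F (n + ((0 : ℕ) : ℤ))) z t =
      ∑ m ∈ Ico (max 1 (z + 1 - 2 * N)) (z + 1), F m * ee (-((t : ℝ) / (4 * N : ℕ)) * m) := by
  unfold LW
  have h1 : Ioc (((max 1 (z + 1 - 2 * N) : ℕ) : ℤ) - 1) (z : ℤ) ⊆ Ioc ((z : ℤ) - 2 * N) z := by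
    intro n hn
    rw [mem_Ioc] at hn ⊢
    omega
  rw [← sum_subset h1]
  · apply sum_nbij' (fun n : ℤ => n.toNat) (fun m : ℕ => (m : ℤ))
    · intro n hn
      rw [mem_Ioc] at hn
      rw [mem_Ico]
      omega
    · intro m hm
      rw [mem_Ico] at hm
      rw [mem_Ioc]
      omega
    · intro n hn
      rw [mem_Ioc] at hn
      omega
    · intro m _
      simp
    · intro n hn
      rw [mem_Ioc] at hn
      obtain ⟨m, rfl⟩ : ∃ m : ℕ, n = m := ⟨n.toNat, by omega⟩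
      unfold exI
      beta_reduce
      rw [if_pos (by omega), ee_eq]
      have h2 : ((m : ℤ) + ((0 : ℕ) : ℤ)).toNat = m := by omega
      rw [h2, Int.toNat_natCast]
      congr 2
      push_cast
      ring
  · intro n hn hn'
    rw [mem_Ioc] at hn hn'
    unfold exI
    beta_reduce
    rw [if_neg (by omega), zero_mul]

/-- the window bound -/
lemma lw_le (F : ℕ → ℂ) (hF : ∀ n, ‖F n‖ ≤ 1) (N : ℕ) (hN : 1 ≤ N) (ε : ℝ) (hε : 0 < ε) (hε1 : ε ≤ 1) (hNe : 8 / ε ≤ (4 * N : ℕ))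
    (hS : ∀ α : ℝ, ‖∑ m ∈ range (4 * N), F m * ee (α * m)‖ ≤ ε ^ 2 / 16 * (4 * N : ℕ)) (t : ℕ) :
    ∑ z ∈ range (N + 2 * N), ‖LW N (4 * N) (fun n => exI F (n + ((0 : ℕ) : ℤ))) z t‖ ≤ 24 * ε * N * N := by
  have h1 : ∀ z ∈ range (N + 2 * N), ‖LW N (4 * N) (fun n => exI F (n + ((0 : ℕ) : ℤ))) z t‖ ≤ 8 * ε * N := by
    intro z hz
    rw [mem_range] at hz
    rw [lw_eq]
    have h2 : ∑ m ∈ Ico (max 1 (z + 1 - 2 * N)) (z + 1), F m * ee (-((t : ℝ) / (4 * N : ℕ)) * m) =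
        ∑ m ∈ range (z + 1), F m * ee (-((t : ℝ) / (4 * N : ℕ)) * m) -
          ∑ m ∈ range (max 1 (z + 1 - 2 * N)), F m * ee (-((t : ℝ) / (4 * N : ℕ)) * m) := by
      rw [eq_sub_iff_add_eq, add_comm]
      exact sum_range_add_sum_Ico _ (by omega)
    rw [h2]
    refine (norm_sub_le _ _).trans ?_
    have h3 := part (4 * N) F hF ε hε hε1 hNe hS (z + 1) (by omega) (-((t : ℝ) / (4 * N : ℕ)))
    have h4 := part (4 * N) F hF ε hε hε1 hNe hS (max 1 (z + 1 - 2 * N)) (by omega) (-((t : ℝ) / (4 * N : ℕ)))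
    push_cast at h3 h4 ⊢
    linarith
  refine (sum_le_sum h1).trans ?_
  rw [sum_const, card_range, nsmul_eq_mul]
  push_cast
  have : (0 : ℝ) ≤ N := Nat.cast_nonneg N
  nlinarith

/-- the product of two values of the Liouville function -/
noncomputable def LL (h m : ℕ) : ℂ := (lam m : ℂ) * lam (m + h)

lemma LL_le (h m : ℕ) : ‖LL h m‖ ≤ 1 := by
  unfold LL
  rw [norm_mul]
  have h1 : ∀ n, ‖(lam n : ℂ)‖ ≤ 1 := by
    intro n
    have := Pool.Agent.TH823.MRS.lam_bdd n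
    rw [Complex.norm_intCast]
    exact_mod_cast this
  exact mul_le_one₀ (h1 _) (norm_nonneg _) (h1 _)

/-- one exceptional set for all gaps -/
theorem pair_win : ∃ E : Set ℕ, Pool.Agent.Y958.U.LZ E ∧ ∀ h : ℕ, 1 ≤ h → ∀ δ : ℝ, 0 < δ →
    ∃ N₀ : ℕ, ∀ N : ℕ, N₀ ≤ N → N ∉ E → ∀ t : ℕ,
      ∑ z ∈ range (N + 2 * N), ‖LW N (4 * N) (fun n => exI (LL h) (n + ((0 : ℕ) : ℤ))) z t‖ ≤ δ * N * N := by
  obtain ⟨E₀, hE₀, h1⟩ := one_E (Pool.Agent.Y304.U.avc Pool.Agent.Y304.U.pw) lam Pool.Agent.TH823.MRS.lam_bdd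
    Pool.Agent.TH823.MRS.lam_flip Pool.Agent.TH823.MRS.expo_lam
  refine ⟨{N | 4 * N + 0 ∈ E₀}, Pool.Agent.Y842.EL.LZ_pull hE₀ 4 0 (by norm_num), fun h hh δ hδ => ?_⟩
  set ε : ℝ := min (δ / 24) 1 with hεd
  have hε0 : 0 < ε := lt_min (by positivity) one_pos
  have hε1 : ε ≤ 1 := min_le_right _ _
  have hεδ : 24 * ε ≤ δ := by
    have := min_le_left (δ / 24) 1
    rw [← hεd] at this
    linarith
  obtain ⟨N₁, h2⟩ := h1 h hh (ε ^ 2 / 16) (by positivity)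
  obtain ⟨N₂, hN₂⟩ := exists_nat_ge (8 / ε)
  refine ⟨N₁ + N₂ + 1, fun N hN hNE t => ?_⟩
  have h3 : 4 * N ∉ E₀ := hNE
  have h4 := lw_le (LL h) (LL_le h) N (by omega) ε hε0 hε1
    (hN₂.trans (by exact_mod_cast (by omega : N₂ ≤ 4 * N))) (fun α => h2 (4 * N) (by omega) h3 α) t
  refine h4.trans ?_
  have : (0 : ℝ) ≤ N := Nat.cast_nonneg N
  gcongr

end Pool.Agent.P8H13.FG
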